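import Pool.Agent.Q74.SF.Def

/-! # JOB CInj of project SF: coalescing walkers on the event that no two have met are independent walkers -/

set_option autoImplicit false

namespace Pool.Agent.Q210.SF

open Finset
open Pool.Agent.Q74.KP
open Pool.Agent.Q74.SF

theorem cinj : S_CInj := by
  intro k g t
  induction t with
  | zero =>
    intro a
    rw [CG_zero]
    by_cases h : Function.Injective a
    · rw [NG_zero h, if_pos h]
    · rw [NG_not h, if_neg h]
  | succ t ih =>
    intro a
    rw [CG_succ]
    by_cases h : Function.Injective a
    · rw [NG_succ h]
      have hc : (univ.image a).card = k := by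
        rw [card_image_of_injective _ h, card_univ, Fintype.card_fin]
      rw [hc]
      congr 1
      refine (sum_nbij' (fun A : Finset (Fin k) => A.image a)
        (fun B : Finset ℤ => univ.filter (fun i => a i ∈ B)) ?_ ?_ ?_ ?_ ?_).symm
      · intro A _
        rw [mem_powerset]
        exact image_subset_image (subset_univ A)
      · intro B _
        exact mem_univ _
      · intro A _
        ext i
        rw [mem_filter, mem_image]
        constructor
        · rintro ⟨-, j, hj, hij⟩
          rwa [← h hij]
        · intro hi
          exact ⟨mem_univ i, i, hi, rfl⟩
      · intro B hB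
        rw [mem_powerset] at hB
        ext x
        rw [mem_image]
        constructor
        · rintro ⟨i, hi, rfl⟩
          exact (mem_filter.1 hi).2
        · intro hx
          obtain ⟨i, -, rfl⟩ := mem_image.1 (hB hx)
          exact ⟨i, mem_filter.2 ⟨mem_univ i, hx⟩, rfl⟩
      · intro A _
        rw [ih]
        congr 1
        funext i
        unfold sh
        by_cases hi : i ∈ A
        · rw [if_pos hi, if_pos (mem_image_of_mem a hi)]
        · rw [if_neg hi, if_neg]
          intro h2
          obtain ⟨j, hj, hij⟩ := mem_image.1 h2
          exact hi (h hij ▸ hj)
    · rw [NG_not h, sum_eq_zero, zero_div]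
      intro B _
      rw [ih]
      apply NG_not
      intro h2
      rw [Function.not_injective_iff] at h
      obtain ⟨i, j, hij, hne⟩ := h
      apply hne
      apply h2
      simp only [hij]

end Pool.Agent.Q210.SF
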