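import Pool.Agent.Q74.SF.Def

/-! # JOB Cont of project SF: free or coalescing for the first `j` steps -/

set_option autoImplicit false

namespace Pool.Agent.Q210.SF

open Finset
open Pool.Agent.Q74.KP
open Pool.Agent.Q74.SF
open Pool.Agent.Q74.AR (bE bE_zero bE_succ)

variable {k : ℕ}

theorem act_const (t : ℕ) (c : ℝ) : ∀ a : Fin k → ℤ, act k (PP k ^ t) (fun _ => c) a = c := by
  induction t with
  | zero => intro a; rw [pow_zero, act_one]
  | succ n ih =>
    intro a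
    rw [pow_succ', act_mul, act_PP]
    rw [sum_congr rfl (fun A _ => ih _), sum_const, nsmul_eq_mul, card_sets]
    field_simp

theorem act_addc (t : ℕ) (c : ℝ) (F : (Fin k → ℤ) → ℝ) (a : Fin k → ℤ) :
    act k (PP k ^ t) (fun z => c + F z) a = c + act k (PP k ^ t) F a := by
  have e : (fun z => c + F z) = (fun _ => c) + F := rfl
  rw [e, map_add, Pi.add_apply, act_const]

theorem CG_one (ψ : ℤ → ℝ) (t : ℕ) : ∀ a : Fin 1 → ℤ,
    CG (fun z : Fin 1 → ℤ => ψ (z 0)) t a = bE t (fun m => ψ (a 0 + m)) := by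
  induction t with
  | zero => intro a; rw [CG_zero, bE_zero]; simp
  | succ n ih =>
    intro a
    have h1 : (univ : Finset (Fin 1)).image a = {a 0} := by
      ext x
      simp
    have hne : (∅ : Finset ℤ) ≠ {a 0} := (singleton_ne_empty _).symm
    have hp : ({a 0} : Finset ℤ).powerset = {∅, {a 0}} := by
      ext B
      rw [mem_powerset, subset_singleton_iff, mem_insert, mem_singleton]
    rw [CG_succ, h1, card_singleton, hp, sum_pair hne, ih, ih, bE_succ, pow_one]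
    congr 3
    · funext m
      simp
    · funext m
      simp only [mem_singleton, if_true]
      push_cast
      congr 1
      ring

section lip

variable {Φ : (Fin k → ℤ) → ℝ} {L : ℝ}

theorem lip_nat (h : ∀ (a : Fin k → ℤ) (i : Fin k), |Φ (a + Pi.single i 1) - Φ a| ≤ L) (a : Fin k → ℤ)
    (i : Fin k) (n : ℕ) : |Φ (a + Pi.single i (n : ℤ)) - Φ a| ≤ L * n := by
  induction n with
  | zero => simp
  | succ n ih =>
    have e : a + Pi.single i ((n + 1 : ℕ) : ℤ) = (a + Pi.single i (n : ℤ)) + Pi.single i 1 := by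
      rw [add_assoc, ← Pi.single_add]
      push_cast
      rfl
    rw [e]
    have h1 := h (a + Pi.single i (n : ℤ)) i
    have h2 : Φ (a + Pi.single i (n : ℤ) + Pi.single i 1) - Φ a =
      (Φ (a + Pi.single i (n : ℤ) + Pi.single i 1) - Φ (a + Pi.single i (n : ℤ))) +
        (Φ (a + Pi.single i (n : ℤ)) - Φ a) := by ring
    rw [h2]
    refine (abs_add_le _ _).trans ?_
    push_cast
    linarith

theorem lip_int (h : ∀ (a : Fin k → ℤ) (i : Fin k), |Φ (a + Pi.single i 1) - Φ a| ≤ L) (a : Fin k → ℤ)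
    (i : Fin k) (m : ℤ) : |Φ (a + Pi.single i m) - Φ a| ≤ L * |(m : ℝ)| := by
  rcases Int.le_total 0 m with hm | hm
  · obtain ⟨n, rfl⟩ := Int.eq_ofNat_of_zero_le hm
    refine (lip_nat h a i n).trans (le_of_eq ?_)
    rw [Int.cast_natCast, Nat.abs_cast]
  · obtain ⟨n, hn⟩ := Int.eq_ofNat_of_zero_le (neg_nonneg.2 hm)
    have hm' : m = -(n : ℤ) := by rw [← hn]; ring
    subst hm'
    have h1 := lip_nat h (a + Pi.single i (-(n : ℤ))) i n
    have e : a + Pi.single i (-(n : ℤ)) + Pi.single i (n : ℤ) = a := by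
      rw [add_assoc, ← Pi.single_add]
      simp
    rw [e, abs_sub_comm] at h1
    refine h1.trans (le_of_eq ?_)
    push_cast
    rw [abs_neg, Nat.abs_cast]

theorem lip_all (h : ∀ (a : Fin k → ℤ) (i : Fin k), |Φ (a + Pi.single i 1) - Φ a| ≤ L) (z w : Fin k → ℤ) :
    |Φ z - Φ w| ≤ L * ∑ i, |(z i : ℝ) - w i| := by
  classical
  have key : ∀ s : Finset (Fin k), |Φ (w + ∑ i ∈ s, Pi.single i (z i - w i)) - Φ w| ≤
      L * ∑ i ∈ s, |(z i : ℝ) - w i| := by
    intro s
    induction s using Finset.induction_on with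
    | empty => simp
    | insert i s hi ih =>
      rw [sum_insert hi, sum_insert hi, mul_add]
      have e : w + (Pi.single i (z i - w i) + ∑ j ∈ s, Pi.single j (z j - w j)) =
        (w + ∑ j ∈ s, Pi.single j (z j - w j)) + Pi.single i (z i - w i) := by
        rw [add_assoc]
        congr 1
        rw [add_comm]
      rw [e]
      have h1 := lip_int h (w + ∑ j ∈ s, Pi.single j (z j - w j)) i (z i - w i)
      push_cast at h1
      set A := Φ (w + ∑ j ∈ s, Pi.single j (z j - w j) + Pi.single i (z i - w i))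
      set B := Φ (w + ∑ j ∈ s, Pi.single j (z j - w j))
      have h2 : A - Φ w = (A - B) + (B - Φ w) := by ring
      rw [h2]
      refine (abs_add_le _ _).trans ?_
      linarith
  have h1 := key univ
  have e : w + ∑ i, Pi.single i (z i - w i) = z := by
    have : ∑ i, Pi.single i (z i - w i) = z - w := by
      rw [← Finset.univ_sum_single (z - w)]
      rfl
    rw [this]
    abel
  rwa [e] at h1

end lip

theorem act_near {Φ : (Fin k → ℤ) → ℝ} {L : ℝ} (hL : 0 ≤ L)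
    (h : ∀ z w : Fin k → ℤ, |Φ z - Φ w| ≤ L * ∑ i, |(z i : ℝ) - w i|) (j j' : ℕ)
    (hj : |(j : ℝ) / 2 - j'| ≤ 1 / 2) (a : Fin k → ℤ) :
    |act k (PP k ^ j) Φ a - Φ (fun i => a i + j')| ≤ L * (k * √((j : ℝ) + 1)) := by
  have h0 := act_dist j j' hj a
  have h1 : act k (PP k ^ j) (fun z => L * ∑ i, |(z i : ℝ) - (a i + j' : ℤ)|) a ≤ L * (k * √((j : ℝ) + 1)) := by
    rw [act_scale]
    exact mul_le_mul_of_nonneg_left h0 hL
  have h2 : act k (PP k ^ j) Φ a ≤
      act k (PP k ^ j) (fun z => Φ (fun i => a i + j') + L * ∑ i, |(z i : ℝ) - (a i + j' : ℤ)|) a := by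
    apply act_mono
    intro z
    have := (abs_le.1 (h z (fun i => a i + j'))).2
    linarith
  have h3 : act k (PP k ^ j) (fun z => Φ (fun i => a i + j') + (-1) * (L * ∑ i, |(z i : ℝ) - (a i + j' : ℤ)|)) a ≤
      act k (PP k ^ j) Φ a := by
    apply act_mono
    intro z
    have := (abs_le.1 (h z (fun i => a i + j'))).1
    linarith
  rw [act_addc] at h2
  rw [act_addc j _ (fun z => (-1) * (L * ∑ i, |(z i : ℝ) - (a i + j' : ℤ)|)), act_scale j (-1)] at h3
  rw [abs_le]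
  constructor <;> linarith

theorem CG_dist (hc : S_Comp) (j j' : ℕ) (hj : |(j : ℝ) / 2 - j'| ≤ 1 / 2) (a : Fin k → ℤ) :
    CG (fun z : Fin k → ℤ => ∑ i, |(z i : ℝ) - (a i + j' : ℤ)|) j a ≤ k * √((j : ℝ) + 1) := by
  rw [CG_sum]
  refine (sum_le_card_nsmul _ _ (√((j : ℝ) + 1)) ?_).trans (by rw [card_univ, Fintype.card_fin, nsmul_eq_mul])
  intro i _
  have h1 := hc k 1 (fun _ => i) (fun z => |(z 0 : ℝ) - (a i + j' : ℤ)|) j a
  have h2 := CG_one (fun y : ℤ => |(y : ℝ) - (a i + j' : ℤ)|) j (a ∘ fun _ => i)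
  have e1 : CG (fun z : Fin k → ℤ => |(z i : ℝ) - (a i + j' : ℤ)|) j a =
      bE j (fun m => |(((a ∘ fun _ : Fin 1 => i) 0 + (m : ℤ) : ℤ) : ℝ) - (a i + j' : ℤ)|) := by
    rw [← h2, ← h1]
    rfl
  rw [e1]
  refine le_trans (le_of_eq ?_) (bE_dist j j' hj)
  congr 1
  funext m
  simp only [Function.comp]
  push_cast
  congr 1
  ring

theorem CG_near (hc : S_Comp) {Φ : (Fin k → ℤ) → ℝ} {L : ℝ} (hL : 0 ≤ L)
    (h : ∀ z w : Fin k → ℤ, |Φ z - Φ w| ≤ L * ∑ i, |(z i : ℝ) - w i|) (j j' : ℕ)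
    (hj : |(j : ℝ) / 2 - j'| ≤ 1 / 2) (a : Fin k → ℤ) :
    |CG Φ j a - Φ (fun i => a i + j')| ≤ L * (k * √((j : ℝ) + 1)) := by
  have h0 := CG_dist hc j j' hj a
  have h1 : CG (fun z => L * ∑ i, |(z i : ℝ) - (a i + j' : ℤ)|) j a ≤ L * (k * √((j : ℝ) + 1)) := by
    rw [CG_mul]
    exact mul_le_mul_of_nonneg_left h0 hL
  have h2 : CG Φ j a ≤
      CG (fun z => Φ (fun i => a i + j') + L * ∑ i, |(z i : ℝ) - (a i + j' : ℤ)|) j a := by
    apply CG_mono
    intro z
    have := (abs_le.1 (h z (fun i => a i + j'))).2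
    linarith
  have h3 : CG (fun z => Φ (fun i => a i + j') + (-1) * (L * ∑ i, |(z i : ℝ) - (a i + j' : ℤ)|)) j a ≤
      CG Φ j a := by
    apply CG_mono
    intro z
    have := (abs_le.1 (h z (fun i => a i + j'))).1
    linarith
  rw [CG_add (fun _ => Φ (fun i => a i + j')), CG_const] at h2
  rw [CG_add (fun _ => Φ (fun i => a i + j')), CG_const, CG_mul (-1)] at h3
  rw [abs_le]
  constructor <;> linarith

theorem cont (h1 : S_Lip) (h2 : S_Comp) : S_Cont := by
  intro k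
  obtain ⟨C, hC, hlip⟩ := h1 k
  refine ⟨2 * C * (k + 1), by positivity, ?_⟩
  intro π G hG r j a
  set Φ := CG (fun z => pat π z * G z) r with hΦ
  have hr : (0 : ℝ) < (r : ℝ) + 1 := by positivity
  have hs : 0 < √((r : ℝ) + 1) := Real.sqrt_pos.2 hr
  have hL : 0 ≤ C / √((r : ℝ) + 1) := by positivity
  have hl := lip_all (Φ := Φ) (L := C / √((r : ℝ) + 1)) (fun a i => hlip π G hG r a i)
  have hj : |(j : ℝ) / 2 - (j / 2 : ℕ)| ≤ 1 / 2 := by
    have h1 : 2 * (j / 2) ≤ j := by omega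
    have h2 : j ≤ 2 * (j / 2) + 1 := by omega
    have h1' : (2 * (j / 2 : ℕ) : ℝ) ≤ j := by exact_mod_cast h1
    have h2' : (j : ℝ) ≤ 2 * (j / 2 : ℕ) + 1 := by exact_mod_cast h2
    rw [abs_le]
    constructor <;> linarith
  have ha := act_near hL hl j (j / 2) hj a
  have hb := CG_near h2 hL hl j (j / 2) hj a
  rw [← CG_time]
  rw [← hΦ]
  have e : act k (PP k ^ j) Φ a - CG Φ j a = (act k (PP k ^ j) Φ a - Φ (fun i => a i + (j / 2 : ℕ))) -
    (CG Φ j a - Φ (fun i => a i + (j / 2 : ℕ))) := by ring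
  rw [e]
  refine (abs_sub _ _).trans ?_
  refine (add_le_add ha hb).trans ?_
  have h3 : C / √((r : ℝ) + 1) * (k * √((j : ℝ) + 1)) ≤ C * (k + 1) * √((j : ℝ) + 1) / √((r : ℝ) + 1) := by
    rw [div_mul_eq_mul_div]
    apply div_le_div_of_nonneg_right _ hs.le
    have : 0 ≤ C * √((j : ℝ) + 1) := by positivity
    nlinarith
  have h4 : 2 * C * (k + 1) * √((j : ℝ) + 1) / √((r : ℝ) + 1) =
    C * (k + 1) * √((j : ℝ) + 1) / √((r : ℝ) + 1) + C * (k + 1) * √((j : ℝ) + 1) / √((r : ℝ) + 1) := by ring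
  rw [h4]
  linarith

end Pool.Agent.Q210.SF
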